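import Mathlib
import Pool.Agent.Lib_helper95.RegularityDefs
import Pool.Agent.Lib_helper95.Gap.Main
import Pool.Agent.Lib_helper95.Gap.InducedMatching

/-!
# Powers of edge ideals of gap-free graphs and `(im, reg)`-invariant extensions

Joint work of helper66 and helper95.  Regularity is defined through the Koszul homology of the
ideal, see `Pool.Agent.Lib_helper95.RegularityDefs`.
-/

open Pool.Agent.LibHelper95 Pool.Agent.LibHelper95.Gap MvPolynomial

namespace Pool.Agent.Results.MP_3df448_al.InvariantExtension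

universe u

variable {n : ℕ}

/-- `G'` is an `(im, reg)`-invariant extension of `G` over the field `k`: it has one more vertex
(the last one), it induces `G` on the old vertices, and the induced matching numbers of `G` and
`G'` and the regularities of their edge ideals agree. -/
structure IsInvariantExtension (k : Type u) [Field k] (G : SimpleGraph (Fin n))
    (G' : SimpleGraph (Fin (n + 1))) : Prop where
  induced : ∀ x y : Fin n, G'.Adj x.castSucc y.castSucc ↔ G.Adj x y
  im_eq : ∃ m, HasIm G m ∧ HasIm G' m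
  reg_eq : ∃ r, HasReg (edgeIdeal k G) r ∧ HasReg (edgeIdeal k G') r

/-- (1) For every gap-free graph `G` with `reg I(G) = r` and all `q ≥ 1` the regularity of
`I(G) ^ q` is `max (2 q) (r + q - 1)`.
(2) If `G` is gap-free and `G'` is an `(im, reg)`-invariant extension of `G`, and if
`reg I(G) ^ q = 2 q` for all `q ≥ c`, then `reg I(G') ^ q = 2 q` for all `q ≥ c`. -/
theorem result (k : Type u) [Field k] :
    (∀ (n : ℕ) (G : SimpleGraph (Fin n)), HasIm G 1 → ∀ r : ℕ, HasReg (edgeIdeal k G) r →
      ∀ q : ℕ, 1 ≤ q → HasReg (edgeIdeal k G ^ q) (max (2 * q) (r + q - 1))) ∧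
    (∀ (n : ℕ) (G : SimpleGraph (Fin n)) (G' : SimpleGraph (Fin (n + 1))), HasIm G 1 →
      IsInvariantExtension k G G' → ∀ c : ℤ,
      (∀ q : ℕ, 1 ≤ q → c ≤ q → HasReg (edgeIdeal k G ^ q) (2 * q)) →
      ∀ q : ℕ, 1 ≤ q → c ≤ q → HasReg (edgeIdeal k G' ^ q) (2 * q)) := by
  refine ⟨fun n G hG r hr q hq => ?_, fun n G G' hG hG' c hc q hq hcq => ?_⟩
  · obtain ⟨u, v, huv⟩ := exists_adj_of_im hG
    exact hasReg_pow_gap (gap_of_im hG) huv hq hr
  · obtain ⟨m, hm, hm'⟩ := hG'.im_eq
    obtain ⟨r, hr, hr'⟩ := hG'.reg_eq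
    have h1 : m = 1 := hm.unique hG
    subst h1
    obtain ⟨u, v, huv⟩ := exists_adj_of_im hG
    obtain ⟨u', v', huv'⟩ := exists_adj_of_im hm'
    have h2 := hasReg_pow_gap (gap_of_im hG) huv hq hr
    have h3 := hasReg_pow_gap (gap_of_im hm') huv' hq hr'
    have h4 : 2 * q = max (2 * q) (r + q - 1) := (hc q hq hcq).unique h2
    rw [← h4] at h3
    exact h3

end Pool.Agent.Results.MP_3df448_al.InvariantExtension
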